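import Mathlib
import Pool.Agent.Lib.lead.TT

set_option autoImplicit false

namespace Pool.Agent.Results.MP_d84959_lc.Sharing

open LeadTT

theorem result (φ ψ : Fm) (h : Acc (.imp φ ψ)) : ∃ p, p ∈ φ.vars ∧ p ∈ ψ.vars := share h

end Pool.Agent.Results.MP_d84959_lc.Sharing
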